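import Pool.Agent.Lib.MP_621c18_co.Link

namespace Pool.Agent.Results.MP_621c18_co.NotDual

open Pool.Agent.OM621

/-- There is a Mandel oriented matroid (on 13 elements) whose dual is not Mandel, under both
readings (`b`) of a directed cycle in the partially directed graph of a program. -/
theorem result : ∃ C : Set (Fin 13 → SignType), IsOM C ∧ IsOM (dual C) ∧
    ∀ b : Bool, Mandel b C ∧ ¬ Mandel b (dual C) :=
  ⟨resNe setA, main⟩

end Pool.Agent.Results.MP_621c18_co.NotDual
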